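import Pool.Agent.J6H90.SF.Own

/-!
# Project SK (MP_1fe969_ag): representations with a large part of scalars

`V = A ⊕ A'`, `A` scalar, `A'` with the same character as an absolutely irreducible `W`.
-/

set_option autoImplicit false

open Matrix Polynomial

namespace Pool.Agent.J6H90.SK

open Pool.Agent.J6H90.SF

variable {k H : Type} [Field k] [Group H] {n m : ℕ}

theorem eq_zero_of_span {X : Matrix (Fin m) (Fin m) k} {s : Set (Matrix (Fin m) (Fin m) k)}
    (hs : Submodule.span k s = ⊤) (h : ∀ Z ∈ s, (X * Z).trace = 0) : X = 0 := by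
  have h1 : ∀ Z : Matrix (Fin m) (Fin m) k, (X * Z).trace = 0 := by
    intro Z
    have h2 : Z ∈ Submodule.span k s := by
      rw [hs]
      exact Submodule.mem_top
    induction h2 using Submodule.span_induction with
    | mem z hz => exact h z hz
    | zero => rw [mul_zero, Matrix.trace_zero]
    | add x y _ _ hx hy => rw [mul_add, Matrix.trace_add, hx, hy, add_zero]
    | smul a x _ hx => rw [Matrix.mul_smul, Matrix.trace_smul, hx, smul_zero]
  ext i j
  have h3 := h1 (Matrix.single j i 1)
  rw [Matrix.trace_mul_single] at h3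
  simpa using h3

/-- a representation with the character of an absolutely irreducible one is absolutely
irreducible -/
theorem span_top (V W : H →* Matrix (Fin m) (Fin m) k) (htr : ∀ h, (V h).trace = (W h).trace)
    (hW : Submodule.span k (Set.range W) = ⊤) : Submodule.span k (Set.range V) = ⊤ := by
  classical
  obtain ⟨b, hb, hbs, hbl⟩ := exists_linearIndependent k (Set.range W)
  rw [hW] at hbs
  have hch : ∀ i : b, ∃ h, W h = i := fun i => hb i.2
  choose f hf using hch
  have hfin : Finite b := hbl.finite
  have hft : Fintype b := Fintype.ofFinite b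
  have hli : LinearIndependent k (fun i : b => V (f i)) := by
    rw [Fintype.linearIndependent_iff]
    intro g hg
    have h1 : ∑ i, g i • W (f i) = 0 := by
      refine eq_zero_of_span hW ?_
      rintro _ ⟨h, rfl⟩
      have h2 : ((∑ i, g i • V (f i)) * V h).trace = 0 := by
        rw [hg, zero_mul, Matrix.trace_zero]
      rw [Finset.sum_mul, Matrix.trace_sum] at h2 ⊢
      rw [← h2]
      refine Finset.sum_congr rfl fun i _ => ?_
      rw [smul_mul_assoc, smul_mul_assoc, Matrix.trace_smul, Matrix.trace_smul, ← map_mul,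
        ← map_mul, htr]
    have h3 : ∑ i, g i • (i : Matrix (Fin m) (Fin m) k) = 0 := by
      rw [← h1]
      exact Finset.sum_congr rfl fun i _ => by rw [hf]
    exact Fintype.linearIndependent_iff.1 hbl g h3
  have hcard : Fintype.card b = Module.finrank k (Matrix (Fin m) (Fin m) k) := by
    have h1 : Submodule.span k (Set.range ((↑) : b → Matrix (Fin m) (Fin m) k)) = ⊤ := by
      rw [Subtype.range_coe]
      exact hbs
    have h2 := finrank_span_eq_card hbl
    rw [h1, finrank_top] at h2
    exact h2.symm
  have h1 := hli.span_eq_top_of_card_eq_finrank' hcard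
  rw [eq_top_iff, ← h1]
  refine Submodule.span_mono ?_
  rintro _ ⟨i, rfl⟩
  exact ⟨f i, rfl⟩

theorem aeval_zero (V W : H →* Matrix (Fin m) (Fin m) k) (htr : ∀ h, (V h).trace = (W h).trace)
    (hW : Submodule.span k (Set.range W) = ⊤) (h : H) (p : k[X]) (hp : aeval (W h) p = 0) :
    aeval (V h) p = 0 := by
  refine eq_zero_of_span (span_top V W htr hW) ?_
  rintro _ ⟨g, rfl⟩
  have h1 := tr_poly' V W 1 ⊤ (by
    intro x _ y
    rw [htr, htr, sub_self, sub_self, mul_zero]) (Subgroup.mem_top h) g p
  rw [hp, zero_mul, Matrix.trace_zero, sub_zero, htr g, sub_self, mul_zero] at h1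
  exact h1

/-- the decomposition -/
structure Dec (V : H →* Matrix (Fin n) (Fin n) k) (W : H →* Matrix (Fin m) (Fin m) k) (c : H →* k)
    (S : Matrix (Fin n) (Fin m) k) (R : Matrix (Fin m) (Fin n) k) : Prop where
  hRS : R * S = 1
  hS : ∀ h, V h * S = S * (R * V h * S)
  hA : ∀ h, V h * (1 - S * R) = c h • (1 - S * R)
  htr : ∀ h, (V h).trace - (W h).trace = c h * ((n : k) - m)
  hW : Submodule.span k (Set.range W) = ⊤

variable {V : H →* Matrix (Fin n) (Fin n) k} {W : H →* Matrix (Fin m) (Fin m) k} {c : H →* k}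
  {S : Matrix (Fin n) (Fin m) k} {R : Matrix (Fin m) (Fin n) k} (D : Dec V W c S R)

include D in
theorem R_mul (h : H) : R * V h = R * V h * S * R := by
  have e1 : R * (1 - S * R) = 0 := by
    rw [Matrix.mul_sub, Matrix.mul_one, ← Matrix.mul_assoc, D.hRS, Matrix.one_mul, sub_self]
  have h1 : R * (V h * (1 - S * R)) = 0 := by rw [D.hA h, Matrix.mul_smul, e1, smul_zero]
  have h2 : R * (V h * (1 - S * R)) = R * V h - R * V h * S * R := by
    rw [mul_sub, mul_one, Matrix.mul_sub]
    simp only [Matrix.mul_assoc]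
  rw [h2, sub_eq_zero] at h1
  exact h1

/-- the second component -/
noncomputable def snd (D : Dec V W c S R) : H →* Matrix (Fin m) (Fin m) k where
  toFun h := R * V h * S
  map_one' := by rw [map_one, Matrix.mul_one, D.hRS]
  map_mul' x y := by
    calc R * V (x * y) * S = R * V x * V y * S := by
          rw [map_mul]
          simp only [Matrix.mul_assoc]
      _ = R * V x * S * R * V y * S := by rw [← R_mul D x]
      _ = R * V x * S * (R * V y * S) := by simp only [Matrix.mul_assoc]

theorem snd_apply (h : H) : snd D h = R * V h * S := rfl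

theorem snd_trace (h : H) : (snd D h).trace = (W h).trace := by
  have h1 := D.htr h
  have h2 : (V h).trace = (V h * (S * R)).trace + (V h * (1 - S * R)).trace := by
    rw [← Matrix.trace_add, ← mul_add, add_sub_cancel, mul_one]
  have h3 : (S * R).trace = m := by
    rw [Matrix.trace_mul_comm, D.hRS, Matrix.trace_one, Fintype.card_fin]
  rw [D.hA, Matrix.trace_smul, Matrix.trace_sub, h3, Matrix.trace_one, Fintype.card_fin,
    smul_eq_mul] at h2
  have h4 : (snd D h).trace = (V h * (S * R)).trace := by
    rw [snd_apply, Matrix.mul_assoc, Matrix.trace_mul_comm, Matrix.mul_assoc]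
  rw [h4]
  linear_combination h1 - h2

theorem pow_S (h : H) (i : ℕ) : V h ^ i * S = S * snd D h ^ i := by
  induction i with
  | zero => rw [pow_zero, pow_zero, Matrix.one_mul, Matrix.mul_one]
  | succ i ih =>
    rw [pow_succ, pow_succ, Matrix.mul_assoc, D.hS h, ← snd_apply D, ← Matrix.mul_assoc, ih,
      Matrix.mul_assoc]

include D in
theorem pow_A (h : H) (i : ℕ) : V h ^ i * (1 - S * R) = c h ^ i • (1 - S * R) := by
  induction i with
  | zero => rw [pow_zero, pow_zero, one_mul, one_smul]
  | succ i ih =>
    rw [pow_succ, mul_assoc, D.hA h, Matrix.mul_smul, ih, smul_smul, pow_succ, mul_comm]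

/-- polynomials in `V h` -/
theorem aeval_eq (h : H) (p : k[X]) :
    aeval (V h) p = S * aeval (snd D h) p * R + p.eval (c h) • (1 - S * R) := by
  have h1 : aeval (V h) p * S = S * aeval (snd D h) p := by
    induction p using Polynomial.induction_on' with
    | add p q hp hq => rw [map_add, map_add, Matrix.add_mul, Matrix.mul_add, hp, hq]
    | monomial i a =>
      rw [aeval_monomial, aeval_monomial, Algebra.algebraMap_eq_smul_one,
        Algebra.algebraMap_eq_smul_one, smul_mul_assoc, one_mul, smul_mul_assoc, one_mul,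
        Matrix.smul_mul, pow_S D h, Matrix.mul_smul]
  have h2 : aeval (V h) p * (1 - S * R) = p.eval (c h) • (1 - S * R) := by
    clear h1
    induction p using Polynomial.induction_on' with
    | add p q hp hq => rw [map_add, add_mul, hp, hq, eval_add, add_smul]
    | monomial i a =>
      rw [aeval_monomial, Algebra.algebraMap_eq_smul_one, smul_mul_assoc, one_mul, smul_mul_assoc,
        pow_A D h, smul_smul, eval_monomial]
  calc aeval (V h) p = aeval (V h) p * (S * R) + aeval (V h) p * (1 - S * R) := by
        rw [← mul_add, add_sub_cancel, mul_one]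
    _ = _ := by rw [← Matrix.mul_assoc, h1, h2]

/-- a polynomial which kills `W h` and `c h` kills `V h` -/
theorem kill (D : Dec V W c S R) (h : H) (p : k[X]) (hp : aeval (W h) p = 0)
    (hc : p.eval (c h) = 0) : aeval (V h) p = 0 := by
  rw [aeval_eq D h p, aeval_zero (snd D) W (snd_trace D) D.hW h p hp, hc, zero_smul, add_zero,
    Matrix.mul_zero, Matrix.zero_mul]

/-- irreducibility of the second component -/
theorem irr (D : Dec V W c S R) (T : Submodule k (Fin n → k))
    (hT : ∀ h, ∀ x ∈ T, V h *ᵥ x ∈ T) (hTS : ∀ x ∈ T, S *ᵥ (R *ᵥ x) = x) (hne : T ≠ ⊥) (y : Fin m → k) :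
    S *ᵥ y ∈ T := by
  obtain ⟨x, hx, hx0⟩ := (Submodule.ne_bot_iff T).1 hne
  have h0 : R *ᵥ x ≠ 0 := by
    intro h
    apply hx0
    rw [← hTS x hx, h, Matrix.mulVec_zero]
  have h1 : ∀ Z : Matrix (Fin m) (Fin m) k, S *ᵥ (Z *ᵥ (R *ᵥ x)) ∈ T := by
    intro Z
    have h2 : Z ∈ Submodule.span k (Set.range (snd D)) := by
      rw [span_top (snd D) W (snd_trace D) D.hW]
      exact Submodule.mem_top
    induction h2 using Submodule.span_induction with
    | mem z hz =>
      obtain ⟨h, rfl⟩ := hz
      have h3 : S *ᵥ (snd D h *ᵥ (R *ᵥ x)) = V h *ᵥ x := by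
        rw [Matrix.mulVec_mulVec, ← Matrix.mulVec_mulVec, Matrix.mulVec_mulVec,
          Matrix.mulVec_mulVec, snd_apply, ← D.hS h, ← Matrix.mulVec_mulVec,
          ← Matrix.mulVec_mulVec, hTS x hx]
      rw [h3]
      exact hT h x hx
    | zero =>
      rw [Matrix.zero_mulVec, Matrix.mulVec_zero]
      exact T.zero_mem
    | add a b _ _ ha hb =>
      rw [Matrix.add_mulVec, Matrix.mulVec_add]
      exact T.add_mem ha hb
    | smul a b _ hb =>
      rw [Matrix.smul_mulVec, Matrix.mulVec_smul]
      exact T.smul_mem _ hb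
  obtain ⟨i, hi⟩ := Function.ne_iff.1 h0
  have h4 : (Matrix.of fun a b => if b = i then y a * ((R *ᵥ x) i)⁻¹ else 0) *ᵥ (R *ᵥ x) = y := by
    ext a
    simp only [Matrix.mulVec, dotProduct, Matrix.of_apply, ite_mul, zero_mul]
    rw [Finset.sum_ite_eq' Finset.univ i]
    simp only [Finset.mem_univ, if_true]
    rw [mul_assoc, inv_mul_cancel₀, mul_one]
    exact hi
  have h5 := h1 (Matrix.of fun a b => if b = i then y a * ((R *ᵥ x) i)⁻¹ else 0)
  rwa [h4] at h5

end Pool.Agent.J6H90.SK
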