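import Pool.Agent.J6H90.SK.Lin

/-!
# Project SK: Maschke's theorem for a subgroup of finite index which acts by scalars
-/

set_option autoImplicit false

open Matrix

namespace Pool.Agent.J6H90.SK

section

variable {k G : Type} [Field k] [CharZero k] [Group G] {n : ℕ}

theorem maschke (V : G →* Matrix (Fin n) (Fin n) k) (H : Subgroup G) [H.FiniteIndex]
    {A T : Submodule k (Fin n → k)} (hTA : T ≤ A) (hA : ∀ g, ∀ x ∈ A, V g *ᵥ x ∈ A)
    (hT : ∀ g, ∀ x ∈ T, V g *ᵥ x ∈ T) (hs : ∀ h ∈ H, ∃ c : k, ∀ x ∈ A, V h *ᵥ x = c • x) :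
    ∃ C ≤ A, (∀ g, ∀ x ∈ C, V g *ᵥ x ∈ C) ∧ T ⊓ C = ⊥ ∧ T ⊔ C = A := by
  classical
  obtain ⟨T', hT'⟩ := T.exists_isCompl
  let p : (Fin n → k) →ₗ[k] (Fin n → k) := T.subtype ∘ₗ Submodule.projectionOnto T T' hT'
  have hp1 : ∀ x, p x ∈ T := fun x => (Submodule.projectionOnto T T' hT' x).2
  have hp2 : ∀ x ∈ T, p x = x := by
    intro x hx
    exact congrArg Subtype.val (Submodule.projectionOnto_apply_left hT' ⟨x, hx⟩)
  have hfin : Finite (G ⧸ H) := Subgroup.finite_quotient_of_finiteIndex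
  have hft : Fintype (G ⧸ H) := Fintype.ofFinite _
  let F : G → (Fin n → k) →ₗ[k] (Fin n → k) := fun g =>
    (Matrix.mulVecLin (V g)) ∘ₗ p ∘ₗ (Matrix.mulVecLin (V g⁻¹))
  have hF : ∀ g x, F g x = V g *ᵥ p (V g⁻¹ *ᵥ x) := fun g x => rfl
  have hFT : ∀ g x, F g x ∈ T := fun g x => hT g _ (hp1 _)
  have hFid : ∀ g, ∀ x ∈ T, F g x = x := by
    intro g x hx
    rw [hF, hp2 _ (hT _ x hx), Matrix.mulVec_mulVec, ← map_mul, mul_inv_cancel, map_one,
      Matrix.one_mulVec]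
  have hFH : ∀ g, ∀ h ∈ H, ∀ x ∈ A, F (g * h) x = F g x := by
    intro g h hh x hx
    obtain ⟨c, hc⟩ := hs h hh
    obtain ⟨c', hc'⟩ := hs h⁻¹ (H.inv_mem hh)
    set y := V g⁻¹ *ᵥ x with hy
    have hyA : y ∈ A := hA _ x hx
    have h1 : (c' * c) • y = y := by
      have h2 : V h *ᵥ (V h⁻¹ *ᵥ y) = y := by
        rw [Matrix.mulVec_mulVec, ← map_mul, mul_inv_cancel, map_one, Matrix.one_mulVec]
      rw [hc' y hyA, Matrix.mulVec_smul, hc y hyA, smul_smul] at h2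
      exact h2
    rw [hF, hF, _root_.mul_inv_rev, map_mul, map_mul, ← Matrix.mulVec_mulVec, ← Matrix.mulVec_mulVec,
      ← hy, hc' y hyA, map_smul, Matrix.mulVec_smul, hc _ (hTA (hp1 _)), smul_smul, ← map_smul, h1]
  have hFo : ∀ g, ∀ x ∈ A, F ((QuotientGroup.mk g : G ⧸ H).out) x = F g x := by
    intro g x hx
    obtain ⟨h, hh⟩ := QuotientGroup.mk_out_eq_mul H g
    rw [hh]
    exact hFH g h h.2 x hx
  set N : k := (Fintype.card (G ⧸ H) : k) with hN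
  have hN0 : N ≠ 0 := Nat.cast_ne_zero.2 Fintype.card_ne_zero
  let P : (Fin n → k) →ₗ[k] (Fin n → k) := N⁻¹ • ∑ q : G ⧸ H, F q.out
  have hP : ∀ x, P x = N⁻¹ • ∑ q : G ⧸ H, F q.out x := by
    intro x
    change (N⁻¹ • ∑ q : G ⧸ H, F q.out) x = _
    rw [LinearMap.smul_apply, LinearMap.sum_apply]
  have hP1 : ∀ x, P x ∈ T := by
    intro x
    rw [hP]
    exact T.smul_mem _ (T.sum_mem fun q _ => hFT _ _)
  have hP2 : ∀ x ∈ T, P x = x := by
    intro x hx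
    rw [hP, Finset.sum_congr rfl fun q _ => hFid q.out x hx, Finset.sum_const, Finset.card_univ,
      ← Nat.cast_smul_eq_nsmul k, smul_smul, inv_mul_cancel₀ hN0, one_smul]
  have hP3 : ∀ a, ∀ x ∈ A, V a *ᵥ P x = P (V a *ᵥ x) := by
    intro a x hx
    rw [hP, hP, Matrix.mulVec_smul, Matrix.mulVec_sum]
    congr 1
    rw [← Equiv.sum_comp (MulAction.toPerm a : Equiv.Perm (G ⧸ H)) fun q => F q.out (V a *ᵥ x)]
    refine Finset.sum_congr rfl fun q _ => ?_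
    have h1 : V a *ᵥ F q.out x = F (a * q.out) (V a *ᵥ x) := by
      rw [hF, hF, Matrix.mulVec_mulVec, ← map_mul, _root_.mul_inv_rev, map_mul V q.out⁻¹,
        ← Matrix.mulVec_mulVec, Matrix.mulVec_mulVec x (V a⁻¹), ← map_mul, inv_mul_cancel, map_one,
        Matrix.one_mulVec]
    rw [h1, ← hFo (a * q.out) _ (hA a x hx)]
    have h2 : (QuotientGroup.mk (a * q.out) : G ⧸ H) = (MulAction.toPerm a : Equiv.Perm (G ⧸ H)) q := by
      rw [MulAction.toPerm_apply]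
      conv_rhs => rw [← QuotientGroup.out_eq' q]
      rfl
    rw [h2]
  refine ⟨A ⊓ LinearMap.ker P, inf_le_left, ?_, ?_, ?_⟩
  · rintro g x ⟨hx, hx0⟩
    refine ⟨hA g x hx, ?_⟩
    rw [SetLike.mem_coe, LinearMap.mem_ker] at hx0 ⊢
    rw [← hP3 g x hx, hx0, Matrix.mulVec_zero]
  · rw [eq_bot_iff]
    rintro x ⟨hx, -, hx0⟩
    rw [SetLike.mem_coe, LinearMap.mem_ker, hP2 x hx] at hx0
    exact hx0
  · apply le_antisymm (sup_le hTA inf_le_left)
    intro x hx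
    rw [Submodule.mem_sup]
    refine ⟨P x, hP1 x, x - P x, ⟨A.sub_mem hx (hTA (hP1 x)), ?_⟩, add_sub_cancel _ _⟩
    rw [SetLike.mem_coe, LinearMap.mem_ker, map_sub, hP2 _ (hP1 x), sub_self]

end

end Pool.Agent.J6H90.SK
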