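import Pool.Agent.J6H90.SK.Lin
import Pool.Agent.J6H90.SF.PROOT
import Pool.Agent.J6H90.WT.Fin

/-!
# Project SK: the Galois representations
-/

set_option autoImplicit false

namespace Pool.Agent.J6H90.SK

open NumberField Filter Topology Pool.Agent.W401.Cheb Pool.Agent.W569.FM
open Pool.Agent.R401.Tr3 Pool.Agent.R401.Tr5 Pool.Agent.R401.Sup3 Pool.Agent.R401.Sup4
open Pool.Agent.R401.Sup (c_ne c_inv)
open Pool.Agent.R401.Tr9 (mh)
open Polynomial Matrix Module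

set_option linter.unusedSectionVars false

section lin

variable {k : Type} [Field k] {n m : ℕ}

/-- the matrices of the decomposition -/
theorem exists_SR {A A' : Submodule k (Fin n → k)} (hc : IsCompl A A') (hm : finrank k A' = m) :
    ∃ (S : Matrix (Fin n) (Fin m) k) (R : Matrix (Fin m) (Fin n) k), R * S = 1 ∧
      (∀ y, S *ᵥ y ∈ A') ∧ (∀ x ∈ A', S *ᵥ (R *ᵥ x) = x) ∧ ∀ x, x - S *ᵥ (R *ᵥ x) ∈ A := by
  classical
  let b : Basis (Fin m) k A' := Module.finBasisOfFinrankEq k A' hm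
  let s : (Fin m → k) →ₗ[k] (Fin n → k) := A'.subtype ∘ₗ b.equivFun.symm.toLinearMap
  let r : (Fin n → k) →ₗ[k] (Fin m → k) :=
    b.equivFun.toLinearMap ∘ₗ (Submodule.projectionOnto A' A hc.symm)
  have hs : ∀ y, s y ∈ A' := fun y => (b.equivFun.symm y).2
  have hrs : ∀ y, r (s y) = y := by
    intro y
    change b.equivFun (Submodule.projectionOnto A' A hc.symm (b.equivFun.symm y : A')) = y
    rw [Submodule.projectionOnto_apply_left, LinearEquiv.apply_symm_apply]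
  have hsr : ∀ x, s (r x) = Submodule.projectionOnto A' A hc.symm x := by
    intro x
    change ((b.equivFun.symm (b.equivFun (Submodule.projectionOnto A' A hc.symm x)) : A') :
      Fin n → k) = _
    rw [LinearEquiv.symm_apply_apply]
  refine ⟨LinearMap.toMatrix' s, LinearMap.toMatrix' r, ?_, ?_, ?_, ?_⟩
  · rw [← LinearMap.toMatrix'_comp]
    have h1 : r ∘ₗ s = LinearMap.id := LinearMap.ext hrs
    rw [h1, LinearMap.toMatrix'_id]
  · intro y
    rw [LinearMap.toMatrix'_mulVec]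
    exact hs y
  · intro x hx
    rw [LinearMap.toMatrix'_mulVec, LinearMap.toMatrix'_mulVec, hsr]
    exact congrArg Subtype.val (Submodule.projectionOnto_apply_left hc.symm ⟨x, hx⟩)
  · intro x
    rw [LinearMap.toMatrix'_mulVec, LinearMap.toMatrix'_mulVec, hsr]
    have h1 : Submodule.projectionOnto A' A hc.symm
        (x - (Submodule.projectionOnto A' A hc.symm x : Fin n → k)) = 0 := by
      rw [map_sub, Submodule.projectionOnto_apply_left, sub_self]
    exact (Submodule.projectionOnto_apply_eq_zero_iff hc.symm).1 h1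

end lin

variable {K : Type} [Field K] [NumberField K] {ℓ : ℕ} [Fact ℓ.Prime] {n m : ℕ}

/-- the character -/
noncomputable def chr (u : ℤ) (H : Subgroup (GK K)) : H →* ℚ_[ℓ] where
  toFun h := cyc K ℓ ℚ_[ℓ] h ^ (-u)
  map_one' := by rw [Subgroup.coe_one, map_one, _root_.one_zpow]
  map_mul' x y := by rw [Subgroup.coe_mul, map_mul, mul_zpow]

theorem dec {V : GK K →* Matrix (Fin n) (Fin n) ℚ_[ℓ]} {W : GK K →* Matrix (Fin m) (Fin m) ℚ_[ℓ]}
    {u : ℤ} {φ : GK K → ℚ} {U : Subgroup (GK K)} (hU : ∀ x ∈ U, ∀ y, φ (x * y) = φ y)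
    (hφ : ∀ y : GK K, cyc K ℓ ℚ_[ℓ] y ^ u * ((V y).trace - (W y).trace) = (φ y : ℚ_[ℓ]))
    {A A' : Submodule ℚ_[ℓ] (Fin n → ℚ_[ℓ])} {S : Matrix (Fin n) (Fin m) ℚ_[ℓ]}
    {R : Matrix (Fin m) (Fin n) ℚ_[ℓ]} (hRS : R * S = 1) (h1 : ∀ y, S *ᵥ y ∈ A')
    (h2 : ∀ x ∈ A', S *ᵥ (R *ᵥ x) = x) (h3 : ∀ x, x - S *ᵥ (R *ᵥ x) ∈ A)
    {H : Subgroup (GK K)} (hHU : H ≤ U)
    (hA' : ∀ g ∈ H, ∀ x ∈ A', V g *ᵥ x ∈ A')
    (hA : ∀ g ∈ H, ∀ x ∈ A, V g *ᵥ x = cyc K ℓ ℚ_[ℓ] g ^ (-u) • x)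
    (hW : Submodule.span ℚ_[ℓ] (Set.range (W.comp H.subtype)) = ⊤) :
    Dec (V.comp H.subtype) (W.comp H.subtype) (chr u H) S R := by
  have ext_mv : ∀ {a b : ℕ} (X Y : Matrix (Fin a) (Fin b) ℚ_[ℓ]), (∀ x, X *ᵥ x = Y *ᵥ x) →
      X = Y := by
    intro a b X Y h
    exact Matrix.toLin'.injective (LinearMap.ext fun x => by simpa using h x)
  refine ⟨hRS, fun h => ?_, fun h => ?_, fun h => ?_, hW⟩
  · refine ext_mv _ _ fun y => ?_
    have h4 := h2 _ (hA' h h.2 _ (h1 y))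
    simp only [MonoidHom.comp_apply, Subgroup.coe_subtype, ← Matrix.mulVec_mulVec]
    exact h4.symm
  · refine ext_mv _ _ fun x => ?_
    have h4 := hA h h.2 _ (h3 x)
    rw [← Matrix.mulVec_mulVec, Matrix.sub_mulVec, Matrix.one_mulVec, Matrix.smul_mulVec,
      Matrix.sub_mulVec, Matrix.one_mulVec, ← Matrix.mulVec_mulVec]
    exact h4
  · have h4 := hφ h
    have h5 := hφ 1
    have h6 : φ h = φ 1 := by
      have := hU h (hHU h.2) 1
      rwa [mul_one] at this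
    rw [map_one, map_one, map_one, _root_.one_zpow, one_mul, Matrix.trace_one, Matrix.trace_one,
      Fintype.card_fin, Fintype.card_fin] at h5
    rw [h6, ← h5] at h4
    change (V h).trace - (W h).trace = cyc K ℓ ℚ_[ℓ] h ^ (-u) * _
    rw [_root_.zpow_neg, ← h4, inv_mul_cancel_left₀ (zpow_ne_zero _ (c_ne _ _))]

end Pool.Agent.J6H90.SK
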